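import Pool.Agent.H23.DM.TargetsI
import Pool.Agent.H92.RC.ID
import Pool.Agent.H29.THC.CQ

/-!
Row SP of the board dmh_modules (MP_52e316_nt): spacing of the frequencies of the characters with
the same component at `k`.
-/

set_option autoImplicit false

open NumberField NumberField.InfinitePlace
open scoped nonZeroDivisors

namespace Pool.Agent.H3.DM.SP

open Pool.Agent.H27.TM
open Pool.Agent.H23.LB Pool.Agent.H23.LC
open Pool.Agent.H25.HK (FI)
open Pool.Agent.H28.RC (idl)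
open Pool.Agent.H29.DW (cpar PrG)
open Pool.Agent.H29.TC (Gn)
open Pool.Agent.H31.SX (LK)
open Pool.Agent.H31.SW (dK)

/-- points of an interval of length four with distances at least one -/
private lemma five {S : Finset ℝ} {a : ℝ} (h1 : ∀ t ∈ S, |t - a| ≤ 2)
    (h2 : ∀ s ∈ S, ∀ t ∈ S, s ≠ t → 1 ≤ |s - t|) : S.card ≤ 5 := by
  have hc : S.card ≤ (Finset.Icc (0 : ℤ) 4).card := by
    refine Finset.card_le_card_of_injOn (fun t => ⌊t - a + 2⌋) ?_ ?_
    · intro t ht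
      have h := abs_le.1 (h1 t ht)
      simp only [Finset.coe_Icc, Set.mem_Icc]
      constructor
      · apply Int.floor_nonneg.2
        linarith [h.1]
      · rw [← Int.lt_add_one_iff, Int.floor_lt]
        push_cast
        linarith [h.2]
    · intro s hs t ht hst
      by_contra hne
      have h := h2 s hs t ht hne
      have h3 := Int.abs_sub_lt_one_of_floor_eq_floor hst
      have h4 : s - a + 2 - (t - a + 2) = s - t := by ring
      rw [h4] at h3
      linarith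
  simpa using hc

variable {K : Type} [Field K] [NumberField K] {f : Ideal (𝓞 K)}

private lemma card_places {n : ℕ} (hn : Module.finrank ℚ K = n) :
    Fintype.card (InfinitePlace K) ≤ n := by
  rw [← hn, ← sum_mult_eq (K := K), Fintype.card_eq_sum_ones]
  exact Finset.sum_le_sum fun v _ => mult_pos (w := v)

private lemma sum_real {n : ℕ} (hn : Module.finrank ℚ K = n) :
    ∑ v : InfinitePlace K, (v.mult : ℝ) = n := by
  rw [← hn, ← sum_mult_eq (K := K)]
  push_cast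
  rfl

/-- the parameters of two points with close frequencies -/
private lemma close_par {q q₀ : HG K f × ℝ} (h : ∀ v : InfinitePlace K, ‖cq q v - cq q₀ v‖ ≤ 2)
    (v : InfinitePlace K) : |(q.2 - q.1.ν v) - (q₀.2 - q₀.1.ν v)| ≤ 2 ∧
      (¬ v.IsReal → |((q.1.k v - q₀.1.k v : ℤ) : ℝ)| ≤ 2) := by
  have h1 := h v
  unfold cq cpar at h1
  by_cases hv : v.IsReal
  · rw [if_pos hv, if_pos hv, ← Complex.ofReal_sub, Complex.norm_real, Real.norm_eq_abs] at h1
    exact ⟨h1, fun h => absurd hv h⟩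
  · rw [if_neg hv, if_neg hv] at h1
    have h2 := (Complex.abs_re_le_norm _).trans h1
    have h3 := (Complex.abs_im_le_norm _).trans h1
    simp only [Complex.sub_re, Complex.add_re, Complex.ofReal_re, Complex.mul_re, Complex.I_re,
      Complex.intCast_re, Complex.intCast_im, Complex.I_im, Complex.sub_im, Complex.add_im,
      Complex.ofReal_im, Complex.mul_im] at h2 h3
    refine ⟨?_, fun _ => ?_⟩
    · have e : 2 * (q.2 - q.1.ν v) + ((q.1.k v : ℝ) * 0 - 0 * 1) -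
          (2 * (q₀.2 - q₀.1.ν v) + ((q₀.1.k v : ℝ) * 0 - 0 * 1)) =
          2 * ((q.2 - q.1.ν v) - (q₀.2 - q₀.1.ν v)) := by ring
      rw [e, abs_mul, abs_two] at h2
      linarith [abs_nonneg ((q.2 - q.1.ν v) - (q₀.2 - q₀.1.ν v))]
    · have e : (0 : ℝ) + ((q.1.k v : ℝ) * 1 + 0 * 0) - (0 + ((q₀.1.k v : ℝ) * 1 + 0 * 0)) =
          ((q.1.k v - q₀.1.k v : ℤ) : ℝ) := by
        push_cast
        ring
      rw [e] at h3
      exact h3

private lemma close_t {n : ℕ} (hn0 : 0 < n) (hn : Module.finrank ℚ K = n) {q q₀ : HG K f × ℝ}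
    (h : ∀ v : InfinitePlace K, |(q.2 - q.1.ν v) - (q₀.2 - q₀.1.ν v)| ≤ 2) :
    |q.2 - q₀.2| ≤ 2 := by
  have hn' : (0 : ℝ) < n := by exact_mod_cast hn0
  have e : (n : ℝ) * (q.2 - q₀.2) =
      ∑ v : InfinitePlace K, (v.mult : ℝ) * ((q.2 - q.1.ν v) - (q₀.2 - q₀.1.ν v)) := by
    have e1 : ∀ v : InfinitePlace K, (v.mult : ℝ) * ((q.2 - q.1.ν v) - (q₀.2 - q₀.1.ν v)) =
        (v.mult : ℝ) * (q.2 - q₀.2) - (v.mult : ℝ) * q.1.ν v + (v.mult : ℝ) * q₀.1.ν v := by
      intro v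
      ring
    simp only [e1]
    rw [Finset.sum_add_distrib, Finset.sum_sub_distrib, q.1.norm_zero, q₀.1.norm_zero,
      ← Finset.sum_mul, sum_real hn]
    ring
  have h1 : |(n : ℝ) * (q.2 - q₀.2)| ≤ n * 2 := by
    rw [e, ← sum_real hn, Finset.sum_mul]
    refine (Finset.abs_sum_le_sum_abs _ _).trans (Finset.sum_le_sum fun v _ => ?_)
    rw [abs_mul, abs_of_nonneg (Nat.cast_nonneg _)]
    exact mul_le_mul_of_nonneg_left (h v) (Nat.cast_nonneg _)
  rw [abs_mul, abs_of_pos hn'] at h1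
  exact le_of_mul_le_mul_left h1 hn'

/-- the generator `1` of the lattice `1` -/
private lemma gn_one {f : Ideal (𝓞 K)} (hf : f ≠ ⊥) : Gn f (1 : FI K) (1 : K) where
  mem := by
    rw [FractionalIdeal.mem_one_iff]
    exact ⟨1, map_one _⟩
  ne := one_ne_zero
  gen y hy := by
    obtain ⟨b, rfl⟩ := (FractionalIdeal.mem_one_iff _).1 hy
    by_cases hb : b = 0
    · obtain ⟨c, hc, hc0⟩ := Submodule.exists_mem_ne_zero_of_ne_bot hf
      refine ⟨c, hc0, ?_⟩
      rw [hb, map_zero, zero_sub, mul_one, mul_one]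
      exact (f : FI K).coeToSubmodule.neg_mem ((FractionalIdeal.mem_coeIdeal _).2 ⟨c, hc, rfl⟩)
    · refine ⟨b, hb, ?_⟩
      rw [mul_one, mul_one]
      have h0 : algebraMap (𝓞 K) K b - (b : K) = 0 := sub_self _
      rw [h0]
      exact (f : FI K).coeToSubmodule.zero_mem
  iff a j _ := by
    rw [mul_one, mul_one, FractionalIdeal.mem_coeIdeal]
    constructor
    · rintro ⟨b, hb, he⟩
      rwa [← RingOfIntegers.ext he]
    · intro ha
      exact ⟨a, ha, rfl⟩

/-- the local component of a character at the numbers congruent to `1` modulo `l` -/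
private lemma loc {l k : Ideal (𝓞 K)} (hl : l ≠ ⊥) (hk : k ≠ ⊥)
    {η : HG K (l * k) → 𝓞 K ⧸ k → ℂ} (hη : Pool.Agent.H23.DM.LoC K l k η) {χ : HG K (l * k)}
    (hχ : PrG k χ) {a : 𝓞 K} (ha : a ≠ 0) (hal : a - 1 ∈ l) :
    χ.ψ (Ideal.span {a}) * (starRingEnd ℂ) (ag χ.k (a : K) * ph χ.ν (a : K)) =
      η χ (Ideal.Quotient.mk k a) := by
  have hlk : l * k ≠ ⊥ := mul_ne_zero hl hk
  have hkk : k ≠ ⊥ := hk
  obtain ⟨hLC, h⟩ := hη χ hχ
  obtain ⟨c, -, hc2, hc3⟩ := h 1 1 one_ne_zero (gn_one hlk)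
  have hcq := (Pool.Agent.H29.THC.pf_CQ K k (η χ) 1 1 hkk one_ne_zero (gn_one hkk)).1
  have hid : ∀ b : 𝓞 K, idl K 1 (b : K) = Ideal.span {b} := by
    intro b
    refine (Pool.Agent.H92.RC.pf_ID K 1 one_ne_zero).2.1 _ _ ?_
    rw [mul_one, FractionalIdeal.coeIdeal_span_singleton]
  have hmem : ∀ b : 𝓞 K, (b : K) ∈ (1 : FI K) := by
    intro b
    rw [FractionalIdeal.mem_one_iff]
    exact ⟨b, rfl⟩
  have key : ∀ b : 𝓞 K, b ≠ 0 →
      χ.ψ (Ideal.span {b}) * (starRingEnd ℂ) (ag χ.k (b : K) * ph χ.ν (b : K)) =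
        c b * η χ (Ideal.Quotient.mk k b) := by
    intro b hb
    have h1 := hc3 b (hmem b)
    have hb' : (b : K) ≠ 0 := by simpa using hb
    rw [hcq b b (by
      rw [mul_one, mul_one, sub_self]
      exact (k : FI K).coeToSubmodule.zero_mem)] at h1
    unfold cg at h1
    rw [if_neg hb', hid] at h1
    rw [← h1, map_mul]
    ring
  have hone : c 1 = 1 := by
    have h1 := key 1 one_ne_zero
    rw [map_one (Ideal.Quotient.mk k), hLC.mc.one, mul_one, Ideal.span_singleton_one, χ.map_top,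
      one_mul] at h1
    have h2 := χ.princ 1 one_ne_zero (by rw [sub_self]; exact Ideal.zero_mem _)
    rw [Ideal.span_singleton_one, χ.map_top] at h2
    rw [← h2, map_one] at h1
    rw [h1]
    simp
  have hca : c (a : K) = 1 := by
    have h1 := hc2 1 (by simp) ((a : K) - 1) (by
      rw [mul_one, FractionalIdeal.mem_coeIdeal]
      exact ⟨a - 1, hal, by simp⟩)
    rw [add_sub_cancel, hone] at h1
    exact h1
  rw [key a ha, hca, one_mul]

private lemma hg_ext {f : Ideal (𝓞 K)} {χ χ' : HG K f} (h1 : χ.ψ = χ'.ψ) (h2 : χ.k = χ'.k)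
    (h3 : χ.ν = χ'.ν) : χ = χ' := by
  cases χ
  cases χ'
  simp only at h1 h2 h3
  subst h1 h2 h3
  rfl

open scoped Classical in
/-- one class of points -/
private lemma class_bd {l k : Ideal (𝓞 K)} (hlk : LK l k)
    {η : HG K (l * k) → 𝓞 K ⧸ k → ℂ} (hη : Pool.Agent.H23.DM.LoC K l k η)
    {n : ℕ} (hn0 : 0 < n) (hn : Module.finrank ℚ K = n) (hEX : Pool.Agent.H23.DM.D_EX)
    {D : ℝ} (hD0 : 0 ≤ D)
    (hD : ∀ S : Finset (HG K l), (∀ χ ∈ S, χ ∈ box K l 8) → (S.card : ℝ) ≤ D)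
    (S : Finset (HG K (l * k) × ℝ)) (hS : Sp1 S) (hP : ∀ q ∈ S, PrG k q.1)
    (he : ∀ q ∈ S, ∀ q₀ ∈ S, η q.1 = η q₀.1)
    (hc : ∀ q ∈ S, ∀ q₀ ∈ S, ∀ v : InfinitePlace K, ‖cq q v - cq q₀ v‖ ≤ 2)
    (hr : ∀ q ∈ S, ∀ q₀ ∈ S, ∀ v : InfinitePlace K, v.IsReal → q.1.k v = q₀.1.k v) :
    (S.card : ℝ) ≤ 5 * D := by
  rcases S.eq_empty_or_nonempty with h0 | ⟨q₀, hq₀⟩
  · rw [h0]
    simpa using hD0
  obtain ⟨h, hh⟩ := hEX K l k q₀.1 hlk.l_ne hlk.k_ne hlk.cop
  have hh' : ∀ q ∈ S, (h q.1).k = q.1.k - q₀.1.k ∧ (h q.1).ν = q.1.ν - q₀.1.ν ∧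
      ∀ I : Ideal (𝓞 K), I ≠ ⊥ → I ⊔ l * k = ⊤ →
        (h q.1).ψ I = q.1.ψ I * (starRingEnd ℂ) (q₀.1.ψ I) := by
    intro q hq
    refine hh q.1 (fun v hv => hr q hq q₀ hq₀ v hv) fun a ha hal _ => ?_
    rw [loc hlk.l_ne hlk.k_ne hη (hP q hq) ha hal,
      loc hlk.l_ne hlk.k_ne hη (hP q₀ hq₀) ha hal, he q hq q₀ hq₀]
  have hpar : ∀ q ∈ S, ∀ v : InfinitePlace K, |(q.2 - q.1.ν v) - (q₀.2 - q₀.1.ν v)| ≤ 2 ∧
      (¬ v.IsReal → |((q.1.k v - q₀.1.k v : ℤ) : ℝ)| ≤ 2) := fun q hq v =>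
    close_par (hc q hq q₀ hq₀) v
  have ht : ∀ q ∈ S, |q.2 - q₀.2| ≤ 2 := fun q hq =>
    close_t hn0 hn fun v => (hpar q hq v).1
  -- the characters
  have hI : ((S.image Prod.fst).card : ℝ) ≤ D := by
    have hinj : Set.InjOn h (S.image Prod.fst : Finset (HG K (l * k))) := by
      intro χ hχ χ' hχ' heq
      obtain ⟨q, hq, rfl⟩ := Finset.mem_image.1 (Finset.mem_coe.1 hχ)
      obtain ⟨q', hq', rfl⟩ := Finset.mem_image.1 (Finset.mem_coe.1 hχ')
      obtain ⟨h1, h2, h3⟩ := hh' q hq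
      obtain ⟨h1', h2', h3'⟩ := hh' q' hq'
      rw [heq] at h1 h2 h3
      refine hg_ext ?_ (sub_left_injective (h1.symm.trans h1'))
        (sub_left_injective (h2.symm.trans h2'))
      funext I
      by_cases hI : I = ⊥
      · rw [hI, q.1.map_bot, q'.1.map_bot]
      · by_cases hf : I ⊔ l * k = ⊤
        · refine mul_right_cancel₀ ?_ ((h3 I hI hf).symm.trans (h3' I hI hf))
          rw [← norm_ne_zero_iff, RCLike.norm_conj, q₀.1.norm_one I hI hf]
          exact one_ne_zero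
        · rw [q.1.eq_zero I hf, q'.1.eq_zero I hf]
    rw [← Finset.card_image_of_injOn hinj]
    apply hD
    intro χ hχ
    obtain ⟨χ', hχ', rfl⟩ := Finset.mem_image.1 hχ
    obtain ⟨q, hq, rfl⟩ := Finset.mem_image.1 hχ'
    obtain ⟨e1, e2, -⟩ := hh' q hq
    intro v
    rw [e1, e2, Pi.sub_apply, Pi.sub_apply]
    have h1 := (hpar q hq v).1
    have h2 := ht q hq
    constructor
    · rw [abs_le] at h1 h2 ⊢
      constructor <;> linarith [h1.1, h1.2, h2.1, h2.2]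
    · by_cases hv : v.IsReal
      · rw [hr q hq q₀ hq₀ v hv, sub_self]
        norm_num
      · linarith [(hpar q hq v).2 hv]
  -- the points of one character
  have hF : ∀ χ ∈ S.image Prod.fst, (S.filter fun q => q.1 = χ).card ≤ 5 := by
    intro χ _
    have hinj : Set.InjOn (Prod.snd : HG K (l * k) × ℝ → ℝ)
        ((S.filter fun q => q.1 = χ : Finset (HG K (l * k) × ℝ)) : Set (HG K (l * k) × ℝ)) := by
      intro p hp q hq he
      have hp' := (Finset.mem_filter.1 (Finset.mem_coe.1 hp)).2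
      have hq' := (Finset.mem_filter.1 (Finset.mem_coe.1 hq)).2
      exact Prod.ext (hp'.trans hq'.symm) he
    rw [← Finset.card_image_of_injOn hinj]
    refine five (a := q₀.2) ?_ ?_
    · intro t ht'
      obtain ⟨q, hq, rfl⟩ := Finset.mem_image.1 ht'
      exact ht q (Finset.mem_filter.1 hq).1
    · intro s hs t ht' hst
      obtain ⟨p, hp, rfl⟩ := Finset.mem_image.1 hs
      obtain ⟨q, hq, rfl⟩ := Finset.mem_image.1 ht'
      obtain ⟨hp1, hp2⟩ := Finset.mem_filter.1 hp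
      obtain ⟨hq1, hq2⟩ := Finset.mem_filter.1 hq
      exact hS p hp1 q hq1 (hp2.trans hq2.symm) hst
  have hcard : S.card ≤ 5 * (S.image Prod.fst).card := by
    have h1 := Finset.sum_le_card_nsmul _ _ _ hF
    rw [← Finset.card_eq_sum_card_image Prod.fst S, smul_eq_mul] at h1
    omega
  calc (S.card : ℝ) ≤ ((5 * (S.image Prod.fst).card : ℕ) : ℝ) := by exact_mod_cast hcard
    _ = 5 * ((S.image Prod.fst).card : ℝ) := by push_cast; ring
    _ ≤ 5 * D := by gcongr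

/-- (SP) spacing of the frequencies. -/
theorem pf_SP (hEX : Pool.Agent.H23.DM.D_EX) (hCT : Pool.Agent.H27.TM.M_CT) :
    Pool.Agent.H23.DM.D_SP := by
  classical
  intro n hn0
  obtain ⟨C, hC, hCT⟩ := hCT n hn0
  refine ⟨2 ^ n * (5 * C), ?_, fun K _ _ hn l k hlk η hη S hS hP η₀ c₀ => ?_⟩
  · have h1 : (1 : ℝ) ≤ 2 ^ n := one_le_pow₀ (by norm_num)
    nlinarith
  have hD0 : 0 ≤ C * (dK K * Nf K l) ^ 3 := by
    have h := hCT K hn l hlk.l_ne ∅ (by simp)
    simpa using h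
  set D : ℝ := C * (dK K * Nf K l) ^ 3 with hDdef
  set S0 : Finset (HG K (l * k) × ℝ) := S.filter fun q => η q.1 = η₀ ∧ ∀ v, ‖cq q v - c₀ v‖ ≤ 1
    with hS0
  have hmem : ∀ q ∈ S0, q ∈ S ∧ η q.1 = η₀ ∧ ∀ v, ‖cq q v - c₀ v‖ ≤ 1 := fun q hq =>
    Finset.mem_filter.1 hq
  let κ : HG K (l * k) × ℝ → (InfinitePlace K → Bool) := fun q v => decide (v.IsReal ∧ q.1.k v = 1)
  have hfib : ∀ b ∈ S0.image κ, ((S0.filter fun q => κ q = b).card : ℝ) ≤ 5 * D := by
    intro b _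
    refine class_bd hlk hη hn0 hn hEX hD0 (fun S' hS' => hCT K hn l hlk.l_ne S' hS') _ ?_ ?_ ?_
      ?_ ?_
    · intro p hp q hq
      exact hS p (hmem p (Finset.mem_filter.1 hp).1).1 q (hmem q (Finset.mem_filter.1 hq).1).1
    · intro q hq
      exact hP q (hmem q (Finset.mem_filter.1 hq).1).1
    · intro q hq q₀ hq₀
      exact (hmem q (Finset.mem_filter.1 hq).1).2.1.trans
        (hmem q₀ (Finset.mem_filter.1 hq₀).1).2.1.symm
    · intro q hq q₀ hq₀ v
      have h1 := (hmem q (Finset.mem_filter.1 hq).1).2.2 v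
      have h2 := (hmem q₀ (Finset.mem_filter.1 hq₀).1).2.2 v
      have e : cq q v - cq q₀ v = (cq q v - c₀ v) - (cq q₀ v - c₀ v) := by ring
      rw [e]
      exact (norm_sub_le _ _).trans (by linarith)
    · intro q hq q₀ hq₀ v hv
      have e1 := congrFun (Finset.mem_filter.1 hq).2 v
      have e2 := congrFun (Finset.mem_filter.1 hq₀).2 v
      have e3 : (v.IsReal ∧ q.1.k v = 1) ↔ (v.IsReal ∧ q₀.1.k v = 1) :=
        decide_eq_decide.1 (e1.trans e2.symm)
      rcases q.1.real_k v hv with h | h <;> rcases q₀.1.real_k v hv with h' | h'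
      · rw [h, h']
      · have := (e3.2 ⟨hv, h'⟩).2
        omega
      · have := (e3.1 ⟨hv, h⟩).2
        omega
      · rw [h, h']
  have hpat : ((S0.image κ).card : ℝ) ≤ 2 ^ n := by
    have h1 : (S0.image κ).card ≤ Fintype.card (InfinitePlace K → Bool) := Finset.card_le_univ _
    rw [Fintype.card_fun, Fintype.card_bool] at h1
    have h2 : 2 ^ Fintype.card (InfinitePlace K) ≤ 2 ^ n :=
      Nat.pow_le_pow_right (by norm_num) (card_places hn)
    exact_mod_cast h1.trans h2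
  have hsum : (S0.card : ℝ) ≤ (S0.image κ).card * (5 * D) := by
    rw [Finset.card_eq_sum_card_image κ S0]
    push_cast
    refine (Finset.sum_le_sum hfib).trans ?_
    rw [Finset.sum_const, nsmul_eq_mul]
  have hfin : (S0.card : ℝ) ≤ 2 ^ n * (5 * C) * (dK K * Nf K l) ^ 3 := by
    calc (S0.card : ℝ) ≤ (S0.image κ).card * (5 * D) := hsum
      _ ≤ 2 ^ n * (5 * D) := by
          have : 0 ≤ 5 * D := by linarith
          gcongr
      _ = 2 ^ n * (5 * C) * (dK K * Nf K l) ^ 3 := by rw [hDdef]; ring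
  exact hfin

end Pool.Agent.H3.DM.SP
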